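import Pool.Agent.Q271.TG.Rows

/-!
# Density of the regulator into absolute Hodge cohomology and smooth affine cubic hypersurfaces

Let `k ⊂ ℂ` be a number field, or the field of all algebraic numbers. Let `q_0, …, q_r` be
polynomials of degree at most two in `M` variables over `k`. The cubic hypersurface
`E : ∑ λ_j q_j(x) = 1` in the affine space of dimension `M + r + 1` (`hypO q 1`) is smooth over `k`,
of dimension `M + r`. We show that the regulators `H^i_M(X, ℚ(j)) → H^i_H(X, ℚ(j))` have dense
image for all smooth varieties `X` over `k` and all `i ≤ 2 j` if and only if they have dense image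
for these hypersurfaces `E` and all `j < i < 2 j`. More precisely, for each `s ≥ 0` they have dense
image for all smooth `X` and all `i, j` with `2 j - i = s` if and only if they have dense image for
all `E` such that `V(q) : q_0 = … = q_r = 0` is smooth and all `i, j` with `2 j - i = s + 1`, `i > j`;
it is enough to know this for infinitely many `s`.

With `n = d - j` and `s = 2 j - i` the group `H^i_M(X, ℚ(j)) = K_s(X)^(j)` of a smooth variety `X` of
dimension `d` is `CH_n(X, s)`, and `H^i_H(X, ℚ(j))` is the absolute Hodge homology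
`H_(2 n + s)(X, ℚ(n))`. All groups are those of the complex variety `X ×_k ℂ`. The condition `i > j`
means `s < j`. (For `i > 2 j` the first group is zero and the second one carries the indiscrete
topology, by reasons of weights.)
-/

set_option linter.checkUnivs false

namespace Pool.Agent.Results.MP_b2b689_ag.DensityOnSmoothCubics

universe u w x

open Q54.CU Pool.Agent.Q271.TG CategoryTheory AlgebraicGeometry

variable {k : Type u} [Field k]

/-- The regulator `CH_n(X, s) → H_(2 n + s)(X, ℚ(n))` has dense image. -/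
def Dense (D : TopData.{u, w, x} k) (n s : ℤ) (X : SchO k) : Prop :=
  DenseRange (D.c n s X)

/-- The regulators have dense image for all smooth varieties. -/
def DensitySmooth (D : TopData.{u, w, x} k) : Prop :=
  ∀ X : SchO k, IsVar X → Smooth X.hom → ∀ n s : ℤ, 0 ≤ s → Dense D n s X

/-- The regulators in the degrees with `j < i < 2 j` have dense image for all hypersurfaces
`E : ∑ λ_j q_j(x) = 1`; the dimension of `E` is `M + r`. -/
def DensityCubics (D : TopData.{u, w, x} k) : Prop :=
  ∀ (M r : ℕ) (q : Fin (r + 1) → MvPolynomial (Fin M) k), (∀ j, (q j).totalDegree ≤ 2) →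
    ∀ s j : ℤ, 0 < s → s < j → Dense D (M + r - j) s (hypO q 1)

/-- The closed subset `q_0 = … = q_r = 0` of the affine space has a structure of smooth closed
subscheme. -/
def SmoothLocus {M r : ℕ} (q : Fin (r + 1) → MvPolynomial (Fin M) k) : Prop :=
  ∃ (V : SchO k) (i : V ⟶ affO k M), IsDecomp i (cplInc q) ∧ Smooth V.hom

/-- The regulators in the degrees with `2 j - i = s` and `i > j` have dense image for all
hypersurfaces `E : ∑ λ_j q_j(x) = 1` such that `V(q)` is smooth. -/
def DensitySmoothCubicsRow (D : TopData.{u, w, x} k) (s : ℤ) : Prop :=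
  ∀ (M r : ℕ) (q : Fin (r + 1) → MvPolynomial (Fin M) k), (∀ j, (q j).totalDegree ≤ 2) →
    SmoothLocus q → ∀ j : ℤ, s < j → Dense D (M + r - j) s (hypO q 1)

/-- The regulators in the degrees with `2 j - i = s` have dense image for all smooth varieties. -/
def DensitySmoothRow (D : TopData.{u, w, x} k) (s : ℤ) : Prop :=
  ∀ X : SchO k, IsVar X → Smooth X.hom → ∀ n : ℤ, Dense D n s X

/-- The hypersurface `E : ∑ λ_j q_j(x) = 1` is a smooth affine variety of degree at most three. -/
def IsSmoothAffineCubic {M r : ℕ} (q : Fin (r + 1) → MvPolynomial (Fin M) k) : Prop :=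
  IsVar (hypO q 1) ∧ Smooth (hypO q 1).hom ∧ IsAffine (hypO q 1).left ∧
    (hypPoly q 1).totalDegree ≤ 3

/-- **Density of regulators and smooth affine cubic hypersurfaces.** -/
theorem result (D : TopData.{u, w, x} k) (hD : IsTheory D)
    (hT : ∀ X : SchO k, IsVar X → Smooth X.hom → HasAffineTorsor X) :
    List.TFAE [DensitySmooth D, DensityCubics D,
      ∀ s₀ : ℤ, ∃ s : ℤ, s₀ < s ∧ DensitySmoothCubicsRow D s] ∧
    (∀ s : ℤ, 0 ≤ s → (DensitySmoothRow D s ↔ DensitySmoothCubicsRow D (s + 1))) ∧
    ∀ (M r : ℕ) (q : Fin (r + 1) → MvPolynomial (Fin M) k), (∀ j, (q j).totalDegree ≤ 2) →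
      IsSmoothAffineCubic q := by
  have hQ : ∀ n s X n' s' Y, Iso D n s X n' s' Y → (Dense D n s X ↔ Dense D n' s' Y) :=
    fun n s X n' s' Y h => h.dense
  have hP1 : ∀ {E B : SchO k} (r : ℕ) (p : E ⟶ B), IsAffineBundle r p.left →
      Smooth B.hom → Smooth E.hom := fun r p hp h => smooth_bundle r p hp h
  refine ⟨?_, ?_, ?_⟩
  · have h := rows_tfae (Q := Dense D) hD hQ
    have e1 : DensitySmooth D ↔ ∀ s : ℤ, 0 ≤ s → TorRow (fun X => Smooth X.hom) (Dense D) s :=
      ⟨fun h s hs X hX hS _ n => h X hX hS n s hs, fun h X hX hS n s hs =>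
        h s hs X hX hS (hT X hX hS) n⟩
    have e3 : DensityCubics D ↔ ∀ s : ℤ, 0 < s → CubRow (fun _ => True) (Dense D) s := by
      constructor
      · intro h s hs M r q hq _ j hj
        exact h M r q hq s j hs hj
      · intro h M r q hq s j hs hj
        obtain ⟨V, i, -, -, hd⟩ := Q54.CC.exists_locus q
        exact h s hs M r q hq ⟨V, i, hd, trivial⟩ j hj
    rw [e1, e3]
    have h13 := h.out 0 2
    have h14 := h.out 0 3
    tfae_have 1 ↔ 2 := h13
    tfae_have 1 ↔ 3 := h14
    tfae_finish
  · intro s hs
    have h := cubRow_iff (P := fun X => Smooth X.hom) (Q := Dense D) hD hP1 hQ hs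
    refine Iff.symm (Iff.trans h ⟨fun h X hX hS n => h X hX hS (hT X hX hS) n, fun h X hX hS _ n =>
      h X hX hS n⟩)
  · intro M r q hq
    exact ⟨(hyp_smooth q).1, (hyp_smooth q).2.1, (hyp_smooth q).2.2, totalDegree_hypPoly q 1 hq⟩

end Pool.Agent.Results.MP_b2b689_ag.DensityOnSmoothCubics
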