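import Pool.Agent.Q59.FS.Sharp2

/-!
# Hodge classes and the regulator for Fermat varieties: short characters

Let `X` be the Fermat variety `x_0 ^ m + ... + x_(n+1) ^ m = 0` of dimension `n`, which is defined over
the rational numbers, or an open subset of it. The part of the density conjecture of Beilinson and Jannsen with
`i = 2 j` and without the Jacobians says that the regulator maps `H^(2j)_M(X, ℚ(j)) = CH^j(X)_ℚ` onto
the group `Hg^(2j,j)(X)` of Hodge classes in `W_(2j) H^(2j)(X, ℚ(j))`. For an open subset `U` of `X` this group is the
image of the group for `X` (`W_(2j) H^(2j)(U, ℚ(j))` is the image of `H^(2j)(X, ℚ(j))`, which is a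
semisimple Hodge structure), so the statement for `X` implies the statement for `U`.

The primitive part of `H ^ n(X, ℂ)` is the sum of the lines `V(a)` of the characters `a`, the multisets of
`N = n + 2` nonzero residues modulo `m` of sum zero, and the Hodge classes in it span the sum of the
lines of the Hodge characters: `∑ ⟨t c / m⟩`, `c ∈ a`, is half the number of the entries for all
units `t`. The lines of the pairs `{a, -a}` and of the standard characters
(`{a, a + m/p, ..., a + (p-1) m/p, -p a}` for odd primes `p` dividing `m`, and
`{a, a + m/2, -2 a, m/2}` for even `m`) are algebraic, and union and removal of a pair preserve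
algebraicity (Shioda, Katsura, Aoki). So the lines of the members of the smallest family
`Generated m (fun _ => False)` that contains the pairs and the standard characters and is closed under
union and removal of a pair are algebraic.

For a prime `p` let `size p = p - 1` if `p` is odd, and `size 2 = 2`. The theorem: a Hodge character
`s` of any degree `m` belongs to this family if for any two different primes `p`, `q` one has
`4 * weight p q s < size p * size q`, where `weight p q s` is the number of entries of `s` whose order
is divisible by `p * q` (by `4 * q` if `p = 2`), entries of order `2` modulo `4` counted twice.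

In particular, let `m` be odd. If `4 N < (p - 1) (q - 1)` for any two different primes `p`, `q` dividing
`m` (an empty condition for prime powers), then all Hodge characters with `N` entries belong to
the family. So for the Fermat varieties `X` of degree `m` and dimension `n` with
`4 (n + 2) < (p - 1) (q - 1)` for all primes `p ≠ q` dividing `m`, and their open subsets, the regulator maps onto
`Hg^(2j,j)(X)` for all `j`; the same holds for products `X × X'` with `n + n' + 4` in the place of `n + 2`
(inductive structure of Fermat varieties: Shioda, Katsura). Known before: all primes dividing `m` are greater than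
`n + 1`.

The bound is the best possible: if `p`, `q` are different odd primes such that `-1` is neither a power
of `p` modulo `q` nor a power of `q` modulo `p` (for example `p = 3`, `q = 13`), then there is a Hodge
character of degree `p * q` with exactly `(p - 1) (q - 1) / 4` entries outside the family.
-/

namespace Pool.Agent.Results.MP_b2b689_ag.FermatShortCharacters

open Pool.Agent.H916R2

/-- `4` for the prime `2`, and `p` for an odd prime `p`. -/
def level (p : ℕ) : ℕ := if p = 2 then 4 else p

/-- `2` for the prime `2`, and `p - 1` for an odd prime `p`. -/
def size (p : ℕ) : ℕ := if p = 2 then 2 else p - 1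

open scoped Classical in
/-- The number of entries of `s` whose order is divisible by `level p * level q`; entries of order
`2` modulo `4` count twice. -/
noncomputable def weight (p q : ℕ) {m : ℕ} (s : Multiset (ZMod m)) : ℕ :=
  (s.map fun a => if level p * level q ∣ addOrderOf a then
    (if addOrderOf a % 4 = 2 then 2 else 1) else 0).sum

lemma weight_eq (p q : ℕ) {m : ℕ} [NeZero m] (s : Multiset (ZMod m)) :
    ((weight p q s : ℕ) : ℤ) = Pool.Agent.Q59.FS.ww p q s := by
  induction s using Multiset.induction_on with
  | empty => simp [weight, Pool.Agent.Q59.FS.ww]
  | cons a s ih =>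
    unfold weight Pool.Agent.Q59.FS.ww at ih ⊢
    rw [Multiset.map_cons, Multiset.sum_cons, Multiset.map_cons, Multiset.sum_cons, ← ih]
    push_cast
    rfl

/-- Short Hodge characters are generated by pairs and standard characters, and the bound is sharp. -/
theorem result :
    (∀ (m : ℕ), 0 < m → ∀ s : Multiset (ZMod m), IsHodge m s → s ≠ 0 →
      (∀ p q : ℕ, p.Prime → q.Prime → p ≠ q → 4 * weight p q s < size p * size q) →
      Generated m (fun _ => False) s) ∧
    (∀ p q : ℕ, p.Prime → q.Prime → p ≠ q → p ≠ 2 → q ≠ 2 →
      (∀ k : ℕ, (p : ZMod q) ^ k ≠ -1) → (∀ k : ℕ, (q : ZMod p) ^ k ≠ -1) →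
      ∃ s : Multiset (ZMod (p * q)), IsHodge (p * q) s ∧
        4 * Multiset.card s = (p - 1) * (q - 1) ∧ ¬ Generated (p * q) (fun _ => False) s) := by
  constructor
  · intro m hm s hs hne hsh
    have : NeZero m := ⟨hm.ne'⟩
    refine Pool.Agent.Q59.FS.short_generated hs hne fun p q hp hq hpq => ?_
    have h1 := hsh p q hp hq hpq
    rw [← weight_eq]
    exact_mod_cast h1
  · intro p q hp hq hne hp2 hq2 h1 h2
    have : Fact p.Prime := ⟨hp⟩
    have : Fact q.Prime := ⟨hq⟩
    have : NeZero (p * q) := ⟨Nat.mul_ne_zero hp.ne_zero hq.ne_zero⟩
    exact Pool.Agent.Q59.FS.exists_exceptional rfl hne hp2 hq2 h1 h2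

end Pool.Agent.Results.MP_b2b689_ag.FermatShortCharacters
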