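import Pool.Agent.Q271.TG.Rows

/-!
# The regulators of one variety as regulators of one smooth affine cubic hypersurface

Let `k ⊂ ℂ` be a number field, or the field of all algebraic numbers, and let `X` be a variety over `k`
with an affine bundle `T → X` whose total space `T` is affine (by Jouanolou every quasi-projective
variety has one, by Thomason every smooth variety). We show that for every `N` there are polynomials
`q_0, …, q_r` of degree at most two in `M` variables over `k`, and a number `t` (the rank of the
bundle), such that for the smooth affine cubic hypersurface `E : ∑ λ_j q_j(x) = 1` and all `n, s` with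
`s ≥ 0`, `n + s ≤ N` the regulators

`CH_n(X, s) → H_(2 n + s)(X, ℚ(n))` and `CH_(n + t + r)(E, s + 1) → H_(2 (n + t + r) + s + 1)(E, ℚ(n + t + r))`

are isomorphic, the second groups as topological groups; if `X` is smooth, then so is
`V(q) : q_0 = … = q_r = 0`. So one hypersurface contains a given finite part of the question for `X`.

For smooth `X` of dimension `d`, `CH_n(X, s) = H^i_M(X, ℚ(j))` with `n = d - j`, `s = 2 j - i`. All
groups are those of the complex variety `X ×_k ℂ`.
-/

set_option linter.checkUnivs false

namespace Pool.Agent.Results.MP_b2b689_ag.OneCubicForEachVariety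

universe u w x

open Q54.CU Pool.Agent.Q271.TG CategoryTheory AlgebraicGeometry

variable {k : Type u} [Field k]

/-- The closed subset `q_0 = … = q_r = 0` of the affine space has a structure of smooth closed
subscheme. -/
def SmoothLocus {M r : ℕ} (q : Fin (r + 1) → MvPolynomial (Fin M) k) : Prop :=
  ∃ (V : SchO k) (i : V ⟶ affO k M), IsDecomp i (cplInc q) ∧ Smooth V.hom

/-- The hypersurface `E : ∑ λ_j q_j(x) = 1` is a smooth affine variety of degree at most three. -/
def IsSmoothAffineCubic {M r : ℕ} (q : Fin (r + 1) → MvPolynomial (Fin M) k) : Prop :=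
  IsVar (hypO q 1) ∧ Smooth (hypO q 1).hom ∧ IsAffine (hypO q 1).left ∧
    (hypPoly q 1).totalDegree ≤ 3

/-- The regulators of `X` in all degrees with `s ≥ 0` and `n + s ≤ N` are those of the hypersurface
`E : ∑ λ_j q_j(x) = 1`, with the indices `n + t + r` and `s + 1`. -/
def SameRegulators (D : TopData.{u, w, x} k) (N : ℕ) (X : SchO k) {M r : ℕ} (t : ℕ)
    (q : Fin (r + 1) → MvPolynomial (Fin M) k) : Prop :=
  ∀ n s : ℤ, 0 ≤ s → n + s ≤ N → Iso D (n + t + r) (s + 1) (hypO q 1) n s X

/-- **One smooth affine cubic hypersurface for each variety.** -/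
theorem result (D : TopData.{u, w, x} k) (hD : IsTheory D) (X : SchO k) (hX : IsVar X)
    (hT : HasAffineTorsor X) (N : ℕ) :
    ∃ (M r t : ℕ) (q : Fin (r + 1) → MvPolynomial (Fin M) k), (∀ j, (q j).totalDegree ≤ 2) ∧
      IsSmoothAffineCubic q ∧ (Smooth X.hom → SmoothLocus q) ∧ SameRegulators D N X t q := by
  obtain ⟨T, t, p, hTv, ha, hp⟩ := hT
  obtain ⟨M, r, q, i, hM, hq, hd⟩ := exists_decomp T hTv.ft ha (N + t + 2)
  refine ⟨M, r, t, q, hq, ⟨(hyp_smooth q).1, (hyp_smooth q).2.1, (hyp_smooth q).2.2,
    totalDegree_hypPoly q 1 hq⟩, fun hS => ⟨T, i, hd, smooth_bundle t p hp hS⟩, fun n s hs hn => ?_⟩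
  exact (smooth_iso hD q i hd (by omega) (by omega)).trans (hD.homotopy t p hTv hX hp n s).symm

end Pool.Agent.Results.MP_b2b689_ag.OneCubicForEachVariety
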