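import Pool.Agent.Q271.TG.Rows

/-!
# Density of the regulator for singular varieties

Let `k ⊂ ℂ` be a number field, or the field of all algebraic numbers. The group
`H^i_M(X, ℚ(j)) = K_s(X)^(j)`, `s = 2 j - i`, of a smooth variety `X` of dimension `d` is the higher
Chow group `CH_n(X, s)`, `n = d - j`, and `H^i_H(X, ℚ(j))` is the absolute Hodge homology
`H_(2 n + s)(X, ℚ(n))` (Borel-Moore). Both make sense for singular `X`. We show that, if the regulators
have dense image for all smooth varieties over `k`, then `CH_n(X, s) → H_(2 n + s)(X, ℚ(n))` has dense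
image for all varieties `X` over `k` with an affine bundle over `X` with affine total space, singular
ones included, and all `n` and `s ≥ 0`; and that, for one `s ≥ 0`, this statement for all such `X` is
equivalent to the density of the regulators for the smooth affine cubic hypersurfaces
`E : ∑ λ_j q_j(x) = 1` and all `i, j` with `2 j - i = s + 1`, `i > j`, where `q_0, …, q_r` are
arbitrary polynomials of degree at most two in `M` variables over `k`; `E` has dimension `M + r`.

All groups are those of the complex variety `X ×_k ℂ`.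
-/

set_option linter.checkUnivs false

namespace Pool.Agent.Results.MP_b2b689_ag.SingularVarieties

universe u w x

open Q54.CU Pool.Agent.Q271.TG CategoryTheory AlgebraicGeometry

variable {k : Type u} [Field k]

/-- The regulator `CH_n(X, s) → H_(2 n + s)(X, ℚ(n))` has dense image. -/
def Dense (D : TopData.{u, w, x} k) (n s : ℤ) (X : SchO k) : Prop :=
  DenseRange (D.c n s X)

/-- The regulators have dense image for all smooth varieties. -/
def DensitySmooth (D : TopData.{u, w, x} k) : Prop :=
  ∀ X : SchO k, IsVar X → Smooth X.hom → ∀ n s : ℤ, 0 ≤ s → Dense D n s X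

/-- The regulators `CH_n(X, s) → H_(2 n + s)(X, ℚ(n))` have dense image for all varieties over which
there is an affine bundle with affine total space, singular ones included. -/
def DensityRow (D : TopData.{u, w, x} k) (s : ℤ) : Prop :=
  ∀ X : SchO k, IsVar X → HasAffineTorsor X → ∀ n : ℤ, Dense D n s X

/-- The regulators in the degrees with `2 j - i = s` and `i > j` have dense image for all
hypersurfaces `E : ∑ λ_j q_j(x) = 1`, of dimension `M + r`. -/
def CubicsRow (D : TopData.{u, w, x} k) (s : ℤ) : Prop :=
  ∀ (M r : ℕ) (q : Fin (r + 1) → MvPolynomial (Fin M) k), (∀ j, (q j).totalDegree ≤ 2) →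
    ∀ j : ℤ, s < j → Dense D (M + r - j) s (hypO q 1)

/-- **Density of regulators for singular varieties.** -/
theorem result (D : TopData.{u, w, x} k) (hD : IsTheory D)
    (hT : ∀ X : SchO k, IsVar X → Smooth X.hom → HasAffineTorsor X) :
    (DensitySmooth D ↔ ∀ s : ℤ, 0 ≤ s → DensityRow D s) ∧
    (∀ s : ℤ, 0 ≤ s → (DensityRow D s ↔ CubicsRow D (s + 1))) ∧
    ∀ (M r : ℕ) (q : Fin (r + 1) → MvPolynomial (Fin M) k), (∀ j, (q j).totalDegree ≤ 2) →
      IsVar (hypO q 1) ∧ Smooth (hypO q 1).hom ∧ IsAffine (hypO q 1).left ∧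
        (hypPoly q 1).totalDegree ≤ 3 := by
  have hQ : ∀ n s X n' s' Y, Iso D n s X n' s' Y → (Dense D n s X ↔ Dense D n' s' Y) :=
    fun n s X n' s' Y h => h.dense
  refine ⟨?_, ?_, ?_⟩
  · have h := rows_tfae (Q := Dense D) hD hQ
    have e1 : DensitySmooth D ↔ ∀ s : ℤ, 0 ≤ s → TorRow (fun X => Smooth X.hom) (Dense D) s :=
      ⟨fun h s hs X hX hS _ n => h X hX hS n s hs, fun h X hX hS n s hs =>
        h s hs X hX hS (hT X hX hS) n⟩
    have e2 : (∀ s : ℤ, 0 ≤ s → DensityRow D s) ↔
        ∀ s : ℤ, 0 ≤ s → TorRow (fun _ => True) (Dense D) s :=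
      ⟨fun h s hs X hX _ hA n => h s hs X hX hA n, fun h s hs X hX hA n =>
        h s hs X hX trivial hA n⟩
    rw [e1, e2]
    exact h.out 0 1
  · intro s hs
    have h := cubRow_iff (P := fun _ => True) (Q := Dense D) hD (fun _ _ _ h => h) hQ hs
    constructor
    · intro h1 M r q hq j hj
      obtain ⟨V, i, -, -, hd⟩ := Q54.CC.exists_locus q
      exact h.2 (fun X hX _ hA n => h1 X hX hA n) M r q hq ⟨V, i, hd, trivial⟩ j hj
    · intro h1 X hX hA n
      exact h.1 (fun M r q hq _ j hj => h1 M r q hq j hj) X hX trivial hA n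
  · intro M r q hq
    exact ⟨(hyp_smooth q).1, (hyp_smooth q).2.1, (hyp_smooth q).2.2, totalDegree_hypPoly q 1 hq⟩

end Pool.Agent.Results.MP_b2b689_ag.SingularVarieties
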